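import Mathlib
import Pool.Agent.T6.H38.LCA
import Pool.Agent.T6.H53.LCM
import Pool.Agent.T6.H45.LCM4

/-!
# Module F3 of the project of helper50 for MP_c6f924_an: the final assembly
-/

set_option autoImplicit false

open Complex Topology Filter Metric MeasureTheory Set N62a1eb23

namespace Pool.Agent.T6.H48.LC

open Pool.Agent.H713R2 Pool.Agent.H712R2

theorem avg_ge {l : ℕ} {γ : ℝ} (F G : List.Vector Bool l → ℂ) (h : ∀ v, γ ≤ (F v - G v).re) :
    γ ≤ ‖(∑ v, F v) / 2 ^ l - (∑ v, G v) / 2 ^ l‖ := by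
  have h1 : (∑ v, F v) / 2 ^ l - (∑ v, G v) / 2 ^ l = (∑ v, (F v - G v)) / 2 ^ l := by
    rw [Finset.sum_sub_distrib, sub_div]
  rw [h1]
  have h2 : ((∑ v, (F v - G v)) / 2 ^ l : ℂ).re = (∑ v, (F v - G v).re) / 2 ^ l := by
    have : ((2 : ℂ) ^ l) = (((2 : ℝ) ^ l : ℝ) : ℂ) := by push_cast; rfl
    rw [this, Complex.div_ofReal_re, Complex.re_sum]
  refine le_trans ?_ (Complex.re_le_norm _)
  rw [h2, le_div_iff₀ (by positivity)]
  calc γ * 2 ^ l = ∑ v : List.Vector Bool l, γ := by
        rw [Finset.sum_const, Finset.card_univ, card_vector, Fintype.card_bool, nsmul_eq_mul]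
        push_cast
        ring
    _ ≤ _ := Finset.sum_le_sum fun v _ => h v

/-- the polynomial decreases along the real interval -/
theorem decr {Q : Polynomial ℂ} {n : ℕ} (hQ : Q.derivative = PP 2 (n + 1)) {p q : ℝ}
    (h7 : ∀ t ∈ Icc p q, (P 2 (n + 1) (t : ℂ)).re ≤ -1 / 2) {s t : ℝ} (hs : s ∈ Icc p q)
    (ht : t ∈ Icc p q) (hst : s ≤ t) :
    (Q.eval (t : ℂ)).re - (Q.eval (s : ℂ)).re ≤ -1 / 2 * (t - s) := by
  have hd : ∀ u : ℝ, HasDerivAt (fun u : ℝ => (Q.eval (u : ℂ)).re)
      (P 2 (n + 1) (u : ℂ)).re u := by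
    intro u
    have h1 := (Q.hasDerivAt (u : ℂ)).real_of_complex
    rw [hQ, eval_PP] at h1
    exact h1
  refine Convex.image_sub_le_mul_sub_of_deriv_le (convex_Icc p q)
    (f := fun u : ℝ => (Q.eval (u : ℂ)).re)
    (fun u _ => (hd u).continuousAt.continuousWithinAt)
    (fun u _ => (hd u).differentiableAt.differentiableWithinAt)
    (fun u hu => ?_) s hs t ht hst
  rw [(hd u).deriv]
  exact h7 u (interior_subset hu)

theorem final {β : ℂ → ℂ} (hβ : IsBeta 2 β) (x : List Bool → ℂ) (r : List Bool → ℝ)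
    {A a h C gap p q : ℝ} (hA : 0 < A) (ha : 0 < a) (hh : 0 < h) (hgap : 0 < gap)
    (hx : ∀ I : List Bool, I ≠ [] → x I ∈ ball (0 : ℂ) 1 ∧ x I ≠ 0)
    (h1 : ∀ (I : List Bool) (σ : Bool), I ≠ [] → ‖x (I ++ [σ]) - x I‖ ≤ A / 16 ^ I.length)
    (h2 : ∀ I J : List Bool, I ≠ [] → I.length = J.length → I ≠ J →
        a / 16 ^ I.length ≤ ‖x I - x J‖)
    (h3 : ∀ I : List Bool, I ≠ [] → ‖x I‖ ≤ 1 - h / 16 ^ I.length)
    (h4 : ∀ I : List Bool, I ≠ [] → 1 - C / 16 ^ I.length ≤ ‖x I‖)
    (h5 : ∀ ε : ℝ, 0 < ε → ∀ᶠ l : ℕ in atTop, ∀ I : List Bool, I.length = l →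
      ‖(x I)⁻¹ * β (x I) - (r I : ℂ)‖ ≤ ε)
    (h6 : ∀ I : List Bool, I ≠ [] → r I ∈ Icc p q)
    (h7 : ∀ t ∈ Icc p q, ∀ j : ℕ, (P 2 (2 * j + 1) (t : ℂ)).re ≤ -1 / 2)
    (h8 : (∀ I J : List Bool, r (true :: I) + gap ≤ r (false :: J)) ∨
      (∀ I J : List Bool, r (false :: I) + gap ≤ r (true :: J))) :
    ∃ c > 0, ∀ ε : ℝ, 0 < ε → ∀ᶠ n : ℕ in atTop, Even n →
      ∃ m : ℕ, |(m : ℝ) - 2 ^ n| ≤ ε * 2 ^ n ∧ c ≤ m * ‖tc β (m + 1)‖ := by
  obtain ⟨B, hB, hBx⟩ := Pool.Agent.T6.H53.LC.tree_energy hA ha hh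
  have hBx' := hBx x h1 h2 h3
  obtain ⟨R, hc, hR1, hR2, hR3, hR4⟩ := Pool.Agent.T6.H38.LC.area_tail hβ
  obtain ⟨γ, hγdef⟩ : ∃ γ, γ = gap / 4 := ⟨_, rfl⟩
  have hγ0 : 0 < γ := by rw [hγdef]; positivity
  have hsB : 0 < √(8 * B) := Real.sqrt_pos.2 (by positivity)
  refine ⟨γ / (32 * B), by positivity, fun ε hε => ?_⟩
  obtain ⟨e, he0, he1, he2⟩ : ∃ e : ℝ, 0 < e ∧ e ≤ ε ∧ e ≤ 1 / 2 :=
    ⟨min ε (1 / 2), lt_min hε (by norm_num), min_le_left _ _, min_le_right _ _⟩
  have hε' : 0 < γ / (4 * √(8 * B)) := by positivity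
  filter_upwards [hR4 e ((γ / (4 * √(8 * B))) ^ 2) he0 (by positivity), eventually_ge_atTop 3]
    with n hn hn3 hev
  by_contra hcon
  push Not at hcon
  have hn8 : (8 : ℝ) ≤ 2 ^ n := by
    calc (8 : ℝ) = 2 ^ 3 := by norm_num
      _ ≤ 2 ^ n := pow_le_pow_right₀ (by norm_num) hn3
  -- the pairing
  have hpair := Pool.Agent.T6.H45.LC.pairing (D := 2 ^ n + 1) (h := hc n)
    (ev := fun z => (R n).eval (z⁻¹ * β z)) (hR2 n) (B := B) (η := γ / (32 * B))
    (ε := γ / (4 * √(8 * B))) (M := e * 2 ^ n) (γ := γ) hB (by positivity) (by positivity)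
    (by
      intro k hk hkM
      have hD : (((2 ^ n + 1 : ℕ) : ℝ)) = 2 ^ n + 1 := by push_cast; ring
      rw [hD] at hkM ⊢
      have h10 := abs_le.1 hkM
      have h11 : e * (2 : ℝ) ^ n ≤ 1 / 2 * 2 ^ n := mul_le_mul_of_nonneg_right he2 (by positivity)
      have hk1 : 1 ≤ k := by
        by_contra hk0
        have : k = 0 := by omega
        subst this
        simp only [Nat.cast_zero] at h10
        linarith [h10.2]
      have hk2 : k ≤ 2 * 2 ^ n - 2 := by
        have h12 : (k : ℝ) + 2 ≤ 2 * 2 ^ n := by linarith [h10.1]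
        have h13 : k + 2 ≤ 2 * 2 ^ n := by exact_mod_cast h12
        omega
      have h14 := hR3 n k (by omega) hk2
      obtain ⟨m, rfl⟩ : ∃ m, k = m + 1 := ⟨k - 1, by omega⟩
      have h15 : |(m : ℝ) - 2 ^ n| ≤ ε * 2 ^ n := by
        have h16 : (m : ℝ) - 2 ^ n = -((2 : ℝ) ^ n + 1 - ((m + 1 : ℕ) : ℝ)) := by
          push_cast; ring
        rw [h16, abs_neg]
        refine hkM.trans (mul_le_mul_of_nonneg_right he1 (by positivity))
      have h17 := hcon m h15
      have h18 := congrArg norm h14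
      rw [norm_mul, norm_mul] at h18
      have h19 : ‖(2 : ℂ) ^ n + 1 - ((m + 1 : ℕ) : ℂ)‖ = |(2 : ℝ) ^ n + 1 - ((m + 1 : ℕ) : ℝ)| := by
        rw [← Real.norm_eq_abs, ← Complex.norm_real]
        congr 1
        push_cast
        ring
      have h20 : ‖(1 : ℂ) - ((m + 1 : ℕ) : ℂ)‖ = m := by
        have : (1 : ℂ) - ((m + 1 : ℕ) : ℂ) = -(m : ℂ) := by push_cast; ring
        rw [this, norm_neg, Complex.norm_natCast]
      rw [h19, h20] at h18
      rw [h18]
      exact h17.le)
    (by
      intro F hF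
      have hD : (((2 ^ n + 1 : ℕ) : ℝ)) = 2 ^ n + 1 := by push_cast; ring
      rw [hD] at hF ⊢
      exact hn F fun k hk => (hF k hk).le)
    (fun l v => x (true :: v.toList)) (fun l v => x (false :: v.toList))
    (fun l v => (hx _ (by simp)).1) (fun l v => (hx _ (by simp)).1)
    (by
      intro ρ hρ
      have hl : Tendsto (fun l : ℕ => 1 - C / (16 : ℝ) ^ (l + 1)) atTop (𝓝 (1 - 0)) := by
        apply Tendsto.const_sub
        apply Tendsto.const_div_atTop
        exact (tendsto_pow_atTop_atTop_of_one_lt (by norm_num)).comp (tendsto_add_atTop_nat 1)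
      rw [sub_zero] at hl
      filter_upwards [hl.eventually (eventually_gt_nhds hρ)] with l hl' v
      have h10 := h4 (true :: v.toList) (by simp)
      rw [List.length_cons, List.Vector.toList_length] at h10
      linarith)
    (by
      intro ρ hρ
      have hl : Tendsto (fun l : ℕ => 1 - C / (16 : ℝ) ^ (l + 1)) atTop (𝓝 (1 - 0)) := by
        apply Tendsto.const_sub
        apply Tendsto.const_div_atTop
        exact (tendsto_pow_atTop_atTop_of_one_lt (by norm_num)).comp (tendsto_add_atTop_nat 1)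
      rw [sub_zero] at hl
      filter_upwards [hl.eventually (eventually_gt_nhds hρ)] with l hl' v
      have h10 := h4 (false :: v.toList) (by simp)
      rw [List.length_cons, List.Vector.toList_length] at h10
      linarith)
    (fun l N => hBx' true l N) (fun l N => hBx' false l N)
    (by
      -- uniform continuity
      obtain ⟨j, hj⟩ := hev
      have h7' : ∀ t ∈ Icc p q, (P 2 (n + 1) (t : ℂ)).re ≤ -1 / 2 := by
        intro t ht
        have := h7 t ht j
        rwa [show 2 * j + 1 = n + 1 by omega] at this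
      obtain ⟨S, hS⟩ : ∃ S : ℝ, S = max |p| |q| + 1 := ⟨_, rfl⟩
      have huc : UniformContinuousOn (fun z => (R n).eval z) (closedBall (0 : ℂ) S) :=
        (isCompact_closedBall (0 : ℂ) S).uniformContinuousOn_of_continuous
          (R n).continuous.continuousOn
      rw [Metric.uniformContinuousOn_iff_le] at huc
      obtain ⟨δ', hδ', huc'⟩ := huc (gap / 16) (by positivity)
      have h9 := h5 (min δ' 1) (lt_min hδ' one_pos)
      have h9' : ∀ᶠ l : ℕ in atTop, ∀ I : List Bool, I.length = l + 1 →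
          ‖(x I)⁻¹ * β (x I) - (r I : ℂ)‖ ≤ min δ' 1 :=
        (tendsto_add_atTop_nat 1).eventually h9
      filter_upwards [h9'] with l hl
      have hclose : ∀ I : List Bool, I.length = l + 1 →
          |((R n).eval ((x I)⁻¹ * β (x I))).re - ((R n).eval (r I : ℂ)).re| ≤ gap / 16 := by
        intro I hI
        have hI0 : I ≠ [] := by
          rintro rfl
          simp at hI
        have h10 := hl I hI
        have h11 := h6 I hI0
        have h12 : ‖(r I : ℂ)‖ ≤ max |p| |q| := by
          rw [Complex.norm_real, Real.norm_eq_abs]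
          exact abs_le_max_abs_abs h11.1 h11.2
        have h13 : (r I : ℂ) ∈ closedBall (0 : ℂ) S := by
          rw [mem_closedBall_zero_iff, hS]; linarith
        have h14 : (x I)⁻¹ * β (x I) ∈ closedBall (0 : ℂ) S := by
          rw [mem_closedBall_zero_iff, hS]
          have h15 := norm_le_norm_add_norm_sub' ((x I)⁻¹ * β (x I)) (r I : ℂ)
          have h16 := h10.trans (min_le_right _ _)
          linarith
        have h17 := huc' _ h14 _ h13 (by rw [dist_eq_norm]; exact h10.trans (min_le_left _ _))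
        rw [dist_eq_norm] at h17
        rw [← Complex.sub_re]
        exact (Complex.abs_re_le_norm _).trans h17
      rw [hγdef]
      have hlen : ∀ (σ : Bool) (v : List.Vector Bool l), (σ :: v.toList).length = l + 1 := by
        intro σ v
        rw [List.length_cons, List.Vector.toList_length]
      rcases h8 with h8 | h8
      · apply avg_ge
        intro v
        rw [Complex.sub_re]
        have b1 := hclose _ (hlen true v)
        have b2 := hclose _ (hlen false v)
        have b3 := h8 v.toList v.toList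
        have b4 := decr (hR1 n) h7' (h6 (true :: v.toList) (by simp))
          (h6 (false :: v.toList) (by simp)) (by linarith)
        have b5 := abs_le.1 b1
        have b6 := abs_le.1 b2
        linarith [b5.1, b6.2]
      · rw [norm_sub_rev]
        apply avg_ge
        intro v
        rw [Complex.sub_re]
        have b1 := hclose _ (hlen true v)
        have b2 := hclose _ (hlen false v)
        have b3 := h8 v.toList v.toList
        have b4 := decr (hR1 n) h7' (h6 (false :: v.toList) (by simp))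
          (h6 (true :: v.toList) (by simp)) (by linarith)
        have b5 := abs_le.1 b1
        have b6 := abs_le.1 b2
        linarith [b5.2, b6.1])
  have h30 : 4 * (γ / (32 * B)) * B = γ / 8 := by field_simp; norm_num
  have h31 : γ / (4 * √(8 * B)) * √(8 * B) = γ / 4 := by field_simp
  rw [h30, h31] at hpair
  linarith

end Pool.Agent.T6.H48.LC
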