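import Mathlib
import Pool.Agent.T6.H48.LCfinal
import Pool.Agent.T6.H57.LCTreeTail
import Pool.Agent.T6.H11.LCPair2

/-!
# Module G4 of the project of helper50 for MP_c6f924_an: the final assembly, stronger form
-/

set_option autoImplicit false

open Complex Topology Filter Metric MeasureTheory Set N62a1eb23

namespace Pool.Agent.T6.H48.LC

open Pool.Agent.H713R2 Pool.Agent.H712R2

theorem near_aux {β : ℂ → ℂ} {hc : ℕ → ℕ → ℂ}
    (hR3 : ∀ n k : ℕ, 1 ≤ n → k ≤ 2 * 2 ^ n - 2 →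
      ((2 : ℂ) ^ n + 1 - k) * hc n k = (1 - (k : ℂ)) * tc β k) {n k : ℕ} (hn3 : 3 ≤ n)
    (hkM : |(2 : ℝ) ^ n + 1 - k| ≤ 1 / 2 * 2 ^ n) :
    ∃ m : ℕ, k = m + 1 ∧ |(m : ℝ) - 2 ^ n| = |(2 : ℝ) ^ n + 1 - k| ∧
      |(2 : ℝ) ^ n + 1 - k| * ‖hc n k‖ = m * ‖tc β (m + 1)‖ := by
  have hn8 : (8 : ℝ) ≤ 2 ^ n := by
    calc (8 : ℝ) = 2 ^ 3 := by norm_num
      _ ≤ 2 ^ n := pow_le_pow_right₀ (by norm_num) hn3
  have h10 := abs_le.1 hkM
  have hk1 : 1 ≤ k := by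
    by_contra hk0
    have : k = 0 := by omega
    subst this
    simp only [Nat.cast_zero] at h10
    linarith [h10.2]
  have hk2 : k ≤ 2 * 2 ^ n - 2 := by
    have h12 : (k : ℝ) + 2 ≤ 2 * 2 ^ n := by linarith [h10.1]
    have h13 : k + 2 ≤ 2 * 2 ^ n := by exact_mod_cast h12
    omega
  have h14 := hR3 n k (by omega) hk2
  obtain ⟨m, rfl⟩ : ∃ m, k = m + 1 := ⟨k - 1, by omega⟩
  refine ⟨m, rfl, ?_, ?_⟩
  · have h16 : (m : ℝ) - 2 ^ n = -((2 : ℝ) ^ n + 1 - ((m + 1 : ℕ) : ℝ)) := by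
      push_cast; ring
    rw [h16, abs_neg]
  · have h18 := congrArg norm h14
    rw [norm_mul, norm_mul] at h18
    have h19 : ‖(2 : ℂ) ^ n + 1 - ((m + 1 : ℕ) : ℂ)‖ = |(2 : ℝ) ^ n + 1 - ((m + 1 : ℕ) : ℝ)| := by
      rw [← Real.norm_eq_abs, ← Complex.norm_real]
      congr 1
      push_cast
      ring
    have h20 : ‖(1 : ℂ) - ((m + 1 : ℕ) : ℂ)‖ = m := by
      have : (1 : ℂ) - ((m + 1 : ℕ) : ℂ) = -(m : ℂ) := by push_cast; ring
      rw [this, norm_neg, Complex.norm_natCast]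
    rw [h19, h20] at h18
    exact h18

/-- the lower bound of the difference of the averages -/
theorem gap_ev {β : ℂ → ℂ} {Q : Polynomial ℂ} {n : ℕ} (hQ : Q.derivative = PP 2 (n + 1))
    (hev : Even n) (x : List Bool → ℂ) (r : List Bool → ℝ)
    {gap p q : ℝ} (hgap : 0 < gap)
    (h5 : ∀ ε : ℝ, 0 < ε → ∀ᶠ l : ℕ in atTop, ∀ I : List Bool, I.length = l →
      ‖(x I)⁻¹ * β (x I) - (r I : ℂ)‖ ≤ ε)
    (h6 : ∀ I : List Bool, I ≠ [] → r I ∈ Icc p q)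
    (h7 : ∀ t ∈ Icc p q, ∀ j : ℕ, (P 2 (2 * j + 1) (t : ℂ)).re ≤ -1 / 2)
    (h8 : (∀ I J : List Bool, r (true :: I) + gap ≤ r (false :: J)) ∨
      (∀ I J : List Bool, r (false :: I) + gap ≤ r (true :: J))) :
    ∀ᶠ l : ℕ in atTop, gap / 4 ≤
      ‖(∑ v : List.Vector Bool l, Q.eval ((x (true :: v.toList))⁻¹ * β (x (true :: v.toList)))) /
          2 ^ l -
        (∑ v : List.Vector Bool l, Q.eval ((x (false :: v.toList))⁻¹ * β (x (false :: v.toList)))) /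
          2 ^ l‖ := by
  obtain ⟨j, hj⟩ := hev
  have h7' : ∀ t ∈ Icc p q, (P 2 (n + 1) (t : ℂ)).re ≤ -1 / 2 := by
    intro t ht
    have := h7 t ht j
    rwa [show 2 * j + 1 = n + 1 by omega] at this
  obtain ⟨S, hS⟩ : ∃ S : ℝ, S = max |p| |q| + 1 := ⟨_, rfl⟩
  have huc : UniformContinuousOn (fun z => Q.eval z) (closedBall (0 : ℂ) S) :=
    (isCompact_closedBall (0 : ℂ) S).uniformContinuousOn_of_continuous
      Q.continuous.continuousOn
  rw [Metric.uniformContinuousOn_iff_le] at huc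
  obtain ⟨δ', hδ', huc'⟩ := huc (gap / 16) (by positivity)
  have h9 := h5 (min δ' 1) (lt_min hδ' one_pos)
  have h9' : ∀ᶠ l : ℕ in atTop, ∀ I : List Bool, I.length = l + 1 →
      ‖(x I)⁻¹ * β (x I) - (r I : ℂ)‖ ≤ min δ' 1 :=
    (tendsto_add_atTop_nat 1).eventually h9
  filter_upwards [h9'] with l hl
  have hclose : ∀ I : List Bool, I.length = l + 1 →
      |(Q.eval ((x I)⁻¹ * β (x I))).re - (Q.eval (r I : ℂ)).re| ≤ gap / 16 := by
    intro I hI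
    have hI0 : I ≠ [] := by
      rintro rfl
      simp at hI
    have h10 := hl I hI
    have h11 := h6 I hI0
    have h12 : ‖(r I : ℂ)‖ ≤ max |p| |q| := by
      rw [Complex.norm_real, Real.norm_eq_abs]
      exact abs_le_max_abs_abs h11.1 h11.2
    have h13 : (r I : ℂ) ∈ closedBall (0 : ℂ) S := by
      rw [mem_closedBall_zero_iff, hS]; linarith
    have h14 : (x I)⁻¹ * β (x I) ∈ closedBall (0 : ℂ) S := by
      rw [mem_closedBall_zero_iff, hS]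
      have h15 := norm_le_norm_add_norm_sub' ((x I)⁻¹ * β (x I)) (r I : ℂ)
      have h16 := h10.trans (min_le_right _ _)
      linarith
    have h17 := huc' _ h14 _ h13 (by rw [dist_eq_norm]; exact h10.trans (min_le_left _ _))
    rw [dist_eq_norm] at h17
    rw [← Complex.sub_re]
    exact (Complex.abs_re_le_norm _).trans h17
  have hlen : ∀ (σ : Bool) (v : List.Vector Bool l), (σ :: v.toList).length = l + 1 := by
    intro σ v
    rw [List.length_cons, List.Vector.toList_length]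
  rcases h8 with h8 | h8
  · apply avg_ge
    intro v
    rw [Complex.sub_re]
    have b1 := hclose _ (hlen true v)
    have b2 := hclose _ (hlen false v)
    have b3 := h8 v.toList v.toList
    have b4 := decr hQ h7' (h6 (true :: v.toList) (by simp))
      (h6 (false :: v.toList) (by simp)) (by linarith)
    have b5 := abs_le.1 b1
    have b6 := abs_le.1 b2
    linarith [b5.1, b6.2]
  · rw [norm_sub_rev]
    apply avg_ge
    intro v
    rw [Complex.sub_re]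
    have b1 := hclose _ (hlen true v)
    have b2 := hclose _ (hlen false v)
    have b3 := h8 v.toList v.toList
    have b4 := decr hQ h7' (h6 (false :: v.toList) (by simp))
      (h6 (true :: v.toList) (by simp)) (by linarith)
    have b5 := abs_le.1 b1
    have b6 := abs_le.1 b2
    linarith [b5.2, b6.1]

theorem hx1_aux {x : List Bool → ℂ} {C : ℝ}
    (h4 : ∀ I : List Bool, I ≠ [] → 1 - C / 16 ^ I.length ≤ ‖x I‖) (σ : Bool) :
    ∀ ρ : ℝ, ρ < 1 → ∀ᶠ l in atTop, ∀ v : List.Vector Bool l, ρ < ‖x (σ :: v.toList)‖ := by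
  intro ρ hρ
  have hl : Tendsto (fun l : ℕ => 1 - C / (16 : ℝ) ^ (l + 1)) atTop (𝓝 (1 - 0)) := by
    apply Tendsto.const_sub
    apply Tendsto.const_div_atTop
    exact (tendsto_pow_atTop_atTop_of_one_lt (by norm_num)).comp (tendsto_add_atTop_nat 1)
  rw [sub_zero] at hl
  filter_upwards [hl.eventually (eventually_gt_nhds hρ)] with l hl' v
  have h10 := h4 (σ :: v.toList) (by simp)
  rw [List.length_cons, List.Vector.toList_length] at h10
  linarith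

theorem final2 {β : ℂ → ℂ} (hβ : IsBeta 2 β) (x : List Bool → ℂ) (r : List Bool → ℝ)
    {A a h C gap p q : ℝ} (hA : 0 < A) (ha : 0 < a) (hh : 0 < h) (hgap : 0 < gap)
    (hx : ∀ I : List Bool, I ≠ [] → x I ∈ ball (0 : ℂ) 1 ∧ x I ≠ 0)
    (h1 : ∀ (I : List Bool) (σ : Bool), I ≠ [] → ‖x (I ++ [σ]) - x I‖ ≤ A / 16 ^ I.length)
    (h2 : ∀ I J : List Bool, I ≠ [] → I.length = J.length → I ≠ J →
        a / 16 ^ I.length ≤ ‖x I - x J‖)
    (h3 : ∀ I : List Bool, I ≠ [] → ‖x I‖ ≤ 1 - h / 16 ^ I.length)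
    (h4 : ∀ I : List Bool, I ≠ [] → 1 - C / 16 ^ I.length ≤ ‖x I‖)
    (h5 : ∀ ε : ℝ, 0 < ε → ∀ᶠ l : ℕ in atTop, ∀ I : List Bool, I.length = l →
      ‖(x I)⁻¹ * β (x I) - (r I : ℂ)‖ ≤ ε)
    (h6 : ∀ I : List Bool, I ≠ [] → r I ∈ Icc p q)
    (h7 : ∀ t ∈ Icc p q, ∀ j : ℕ, (P 2 (2 * j + 1) (t : ℂ)).re ≤ -1 / 2)
    (h8 : (∀ I J : List Bool, r (true :: I) + gap ≤ r (false :: J)) ∨
      (∀ I J : List Bool, r (false :: I) + gap ≤ r (true :: J))) :
    ∃ c > 0, ∀ K : ℝ, ∃ J : ℕ, ∀ ε : ℝ, 0 < ε → ∀ᶠ n : ℕ in atTop, Even n →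
      (∃ m : ℕ, |(m : ℝ) - 2 ^ n| ≤ J ∧ c ≤ m * ‖tc β (m + 1)‖) ∨
      (∃ m : ℕ, |(m : ℝ) - 2 ^ n| ≤ ε * 2 ^ n ∧ K ≤ m * ‖tc β (m + 1)‖) := by
  obtain ⟨B, hB, hBx⟩ := Pool.Agent.T6.H53.LC.tree_energy hA ha hh
  have hBx' := hBx x h1 h2 h3
  obtain ⟨R, hc, hR1, hR2, hR3, hR4⟩ := Pool.Agent.T6.H38.LC.area_tail hβ
  obtain ⟨γ, hγdef⟩ : ∃ γ, γ = gap / 4 := ⟨_, rfl⟩
  have hγ0 : 0 < γ := by rw [hγdef]; positivity
  have hsB : 0 < √(8 * B) := Real.sqrt_pos.2 (by positivity)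
  refine ⟨γ / (32 * B), by positivity, fun K => ?_⟩
  obtain ⟨K', hK'1, hK'2⟩ : ∃ K' : ℝ, 1 ≤ K' ∧ K ≤ K' := ⟨max K 1, le_max_right _ _, le_max_left _ _⟩
  have hK'0 : 0 < K' := by linarith
  obtain ⟨J₀, l₀, hJ⟩ := Pool.Agent.T6.H57.LC.tree_tail hA ha hh (ε := γ / (32 * K')) (by positivity)
  have hJx := hJ x h1 h2 h3
  obtain ⟨J, hJ1, hJ2⟩ : ∃ J : ℕ, 1 ≤ J ∧ J₀ ≤ J := ⟨max J₀ 1, le_max_right _ _, le_max_left _ _⟩
  have hJx' : ∀ σ₀ : Bool, ∀ᶠ l : ℕ in atTop, ∀ N : ℕ,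
      ∑ p ∈ Finset.Icc J N, ‖∑ v : List.Vector Bool l, x (σ₀ :: v.toList) ^ p‖ /
          ((2 : ℝ) ^ l * p) ≤ γ / (32 * K') := by
    intro σ₀
    filter_upwards [eventually_ge_atTop l₀] with l hl N
    refine le_trans ?_ (hJx σ₀ l N hl)
    apply Finset.sum_le_sum_of_subset_of_nonneg
    · exact Finset.Icc_subset_Icc hJ2 le_rfl
    · intro i _ _
      positivity
  refine ⟨J, fun ε hε => ?_⟩
  obtain ⟨e, he0, he1, he2⟩ : ∃ e : ℝ, 0 < e ∧ e ≤ ε ∧ e ≤ 1 / 2 :=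
    ⟨min ε (1 / 2), lt_min hε (by norm_num), min_le_left _ _, min_le_right _ _⟩
  have hε' : 0 < γ / (4 * √(8 * B)) := by positivity
  have hJn : ∀ᶠ n : ℕ in atTop, (2 * J : ℝ) ≤ 2 ^ n :=
    (tendsto_pow_atTop_atTop_of_one_lt (by norm_num : (1 : ℝ) < 2)).eventually_ge_atTop _
  filter_upwards [hR4 e ((γ / (4 * √(8 * B))) ^ 2) he0 (by positivity), eventually_ge_atTop 3,
    hJn] with n hn hn3 hJn hev
  by_contra hcon
  push Not at hcon
  obtain ⟨hcon1, hcon2⟩ := hcon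
  have hD : (((2 ^ n + 1 : ℕ) : ℝ)) = 2 ^ n + 1 := by push_cast; ring
  -- the pairing
  have hpair := Pool.Agent.T6.H11.LC.pairing2 (D := 2 ^ n + 1) (h := hc n)
    (ev := fun z => (R n).eval (z⁻¹ * β z)) (hR2 n) (B := B) (B' := γ / (32 * K'))
    (η := γ / (32 * B)) (K := K')
    (ε := γ / (4 * √(8 * B))) (M := e * 2 ^ n) (γ := γ) (J := J) hB (by positivity)
    (by positivity) hK'0.le (by positivity)
    (by
      intro k hk hkM
      rw [hD] at hkM ⊢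
      obtain ⟨m, rfl, hm1, hm2⟩ := near_aux hR3 hn3 (k := k) (by linarith)
      rw [hm2]
      exact (hcon1 m (by rw [hm1]; exact hkM.le)).le)
    (by
      intro k hk hkM
      rw [hD] at hkM ⊢
      have h11 : e * (2 : ℝ) ^ n ≤ 1 / 2 * 2 ^ n := mul_le_mul_of_nonneg_right he2 (by positivity)
      have h12 : e * (2 : ℝ) ^ n ≤ ε * 2 ^ n := mul_le_mul_of_nonneg_right he1 (by positivity)
      obtain ⟨m, rfl, hm1, hm2⟩ := near_aux hR3 hn3 (k := k) (by linarith)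
      rw [hm2]
      exact (hcon2 m (by rw [hm1]; exact hkM.trans h12)).le.trans hK'2)
    (by
      intro F hF
      rw [hD] at hF ⊢
      exact hn F fun k hk => (hF k hk).le)
    (fun l v => x (true :: v.toList)) (fun l v => x (false :: v.toList))
    (fun l v => (hx _ (by simp)).1) (fun l v => (hx _ (by simp)).1)
    (hx1_aux h4 true) (hx1_aux h4 false)
    (fun l N => hBx' true l N) (fun l N => hBx' false l N)
    (hJx' true) (hJx' false)
    (by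
      rw [hγdef]
      exact gap_ev (hR1 n) hev x r hgap h5 h6 h7 h8)
  have h30 : 4 * (γ / (32 * B)) * B = γ / 8 := by field_simp; norm_num
  have h31 : γ / (4 * √(8 * B)) * √(8 * B) = γ / 4 := by field_simp
  have h32 : 4 * K' * (γ / (32 * K')) = γ / 8 := by field_simp; norm_num
  rw [h30, h31, h32] at hpair
  linarith

end Pool.Agent.T6.H48.LC
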