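import Mathlib
import Pool.Agent.T6.H50.LC.Sys
import Pool.Agent.T6.H32.LCM1

/-!
# Module F2 of the project of helper50 for MP_c6f924_an

The centres `κ I 0` are real, lie in a fixed interval, and the two halves of the tree are separated.
-/

set_option autoImplicit false

open Complex Topology Filter Metric MeasureTheory Set N62a1eb23

namespace Pool.Agent.T6.H48.LC

open Pool.Agent.H713R2 Pool.Agent.H712R2 Pool.Agent.T6.H50.LC

theorem tau_nonneg : (0 : ℝ) ≤ τ₀ := by unfold τ₀; positivity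

theorem LO_mono {j₁ j₂ j₁' j₂' : ℝ} (h12 : j₁ ≤ j₂) (h1 : j₁' < j₁)
    (h2 : j₂ < j₂') : LO τ₀ j₁ j₂ ⊆ LO τ₀ j₁' j₂' := fun _ hz =>
  LL_subset_LO tau_nonneg h12 h1 h2 (LO_subset_LL _ _ _ hz)

theorem neg_LO {τ j₁ j₂ : ℝ} {z : ℂ} (hz : z ∈ LO τ j₁ j₂) : -z ∈ LO τ (-j₂) (-j₁) := by
  have h1 : lf τ j₁ j₂ z < 0 := hz
  show lf τ (-j₂) (-j₁) (-z) < 0
  unfold lf at h1 ⊢
  rw [Complex.neg_re, Complex.neg_im, abs_neg]
  nlinarith

theorem conj_LO {τ j₁ j₂ : ℝ} {z : ℂ} (hz : z ∈ LO τ j₁ j₂) :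
    (starRingEnd ℂ) z ∈ LO τ j₁ j₂ := by
  have h1 : lf τ j₁ j₂ z < 0 := hz
  show lf τ j₁ j₂ ((starRingEnd ℂ) z) < 0
  unfold lf at h1 ⊢
  rw [Complex.conj_re, Complex.conj_im, abs_neg, neg_sq]
  exact h1

theorem g_inj (c : ℂ) : Function.Injective (g c) := by
  intro a b h
  rw [← g_sq c a, ← g_sq c b, h]

theorem P3_conj (c : ℂ) : P 2 3 ((starRingEnd ℂ) c) = (starRingEnd ℂ) (P 2 3 c) := by
  simp only [P_succ, P_zero, map_add, map_pow, map_zero]

variable {c₀ δ δ₁ L : ℝ} {m : ℕ} {κ : List Bool → ℂ → ℂ}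

theorem ball_of_mem (h : KSys c₀ δ δ₁ L m κ) {c : ℂ} (hc : c ∈ closedBall (c₀ : ℂ) δ₁) :
    c ∈ ball (c₀ : ℂ) δ := by
  rw [mem_closedBall] at hc
  rw [mem_ball]
  exact lt_of_le_of_lt hc h.hδ₁.2

theorem conj_mem_closedBall {c : ℂ} (hc : c ∈ closedBall (c₀ : ℂ) δ₁) :
    (starRingEnd ℂ) c ∈ closedBall (c₀ : ℂ) δ₁ := by
  rw [mem_closedBall, dist_eq_norm] at hc ⊢
  have h1 : (starRingEnd ℂ) c - (c₀ : ℂ) = (starRingEnd ℂ) (c - c₀) := by
    rw [map_sub, Complex.conj_ofReal]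
  rw [h1, RCLike.norm_conj]
  exact hc

/-- uniqueness -/
theorem uniq (h : KSys c₀ δ δ₁ L m κ) {I : List Bool} {v c : ℂ} (hv : v ∈ UU I)
    (hc : c ∈ closedBall (c₀ : ℂ) δ₁) (he : P 2 3 c = (g c)^[m] (Tw I c v)) : c = κ I v := by
  have h1 := h.est I v hv c hc
  rw [he, sub_self, norm_zero, mul_zero] at h1
  exact sub_eq_zero.1 (norm_eq_zero.1 (le_antisymm h1 (norm_nonneg _)))

theorem T_true_mem (h : KSys c₀ δ δ₁ L m κ) {c z : ℂ} (hc : c ∈ ball (c₀ : ℂ) δ)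
    (hz : z ∈ LL τ₀ (-4 / 5) (4 / 5)) : T true c z ∈ LO τ₀ (1 / 25) (16 / 25) := by
  have := (h.good c hc z hz).2
  simpa [T] using this

theorem T_false_mem (h : KSys c₀ δ δ₁ L m κ) {c z : ℂ} (hc : c ∈ ball (c₀ : ℂ) δ)
    (hz : z ∈ LL τ₀ (-4 / 5) (4 / 5)) : T false c z ∈ LO τ₀ (-16 / 25) (-1 / 25) := by
  have h1 := neg_LO (h.good c hc z hz).2
  have h2 : T false c z = -G c (G c z) := by simp [T]
  rw [h2]
  convert h1 using 1 <;> norm_num

theorem Tw_mem (h : KSys c₀ δ δ₁ L m κ) {c v : ℂ} (hc : c ∈ ball (c₀ : ℂ) δ)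
    (hv : v ∈ LO τ₀ (-4 / 5) (4 / 5)) (I : List Bool) :
    Tw I c v ∈ LO τ₀ (-4 / 5) (4 / 5) := by
  induction I with
  | nil => exact hv
  | cons σ I ih =>
    have ih' := LO_subset_LL _ _ _ ih
    cases σ with
    | true =>
      exact LO_mono (by norm_num) (by norm_num) (by norm_num) (T_true_mem h hc ih')
    | false =>
      exact LO_mono (by norm_num) (by norm_num) (by norm_num) (T_false_mem h hc ih')

theorem Tw_cons_mem (h : KSys c₀ δ δ₁ L m κ) {c v : ℂ} (hc : c ∈ ball (c₀ : ℂ) δ)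
    (hv : v ∈ LO τ₀ (-4 / 5) (4 / 5)) (σ : Bool) (I : List Bool) :
    Tw (σ :: I) c v ∈ (if σ then LO τ₀ (1 / 25) (16 / 25) else LO τ₀ (-16 / 25) (-1 / 25)) := by
  have ih' := LO_subset_LL _ _ _ (Tw_mem h hc hv I)
  cases σ with
  | true => exact T_true_mem h hc ih'
  | false => exact T_false_mem h hc ih'

theorem Tw_conj (h : KSys c₀ δ δ₁ L m κ) {c v : ℂ} (hc : c ∈ ball (c₀ : ℂ) δ)
    (hv : v ∈ LO τ₀ (-4 / 5) (4 / 5)) (I : List Bool) :
    Tw I ((starRingEnd ℂ) c) ((starRingEnd ℂ) v) = (starRingEnd ℂ) (Tw I c v) := by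
  induction I with
  | nil => rfl
  | cons σ I ih =>
    have ih' := LO_subset_LL _ _ _ (Tw_mem h hc hv I)
    show T σ _ (Tw I _ _) = _
    rw [ih, T_conj σ (h.good c hc _ ih').1]
    rfl

theorem gm_mem (h : KSys c₀ δ δ₁ L m κ) {c z : ℂ} (hc : c ∈ ball (c₀ : ℂ) δ)
    (hz : z ∈ LL τ₀ (-3 / 2) (7 / 10)) (n : ℕ) : (g c)^[n] z ∈ LL τ₀ (-3 / 2) (7 / 10) := by
  induction n with
  | zero => exact hz
  | succ n ih =>
    rw [Function.iterate_succ_apply']
    exact LO_subset_LL _ _ _ (LO_mono (by norm_num) (by norm_num) (by norm_num)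
      (h.gmap c hc _ ih).2)

theorem gm_conj (h : KSys c₀ δ δ₁ L m κ) {c z : ℂ} (hc : c ∈ ball (c₀ : ℂ) δ)
    (hz : z ∈ LL τ₀ (-3 / 2) (7 / 10)) (n : ℕ) :
    (g ((starRingEnd ℂ) c))^[n] ((starRingEnd ℂ) z) = (starRingEnd ℂ) ((g c)^[n] z) := by
  induction n with
  | zero => rfl
  | succ n ih =>
    rw [Function.iterate_succ_apply', ih, Function.iterate_succ_apply',
      g_conj (h.gmap c hc _ (gm_mem h hc hz n)).1]

theorem UU_sub (I : List Bool) : UU I ⊆ LO τ₀ (-4 / 5) (4 / 5) := by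
  unfold UU
  split_ifs
  · exact LO_mono (by norm_num) (by norm_num) (by norm_num)
  · exact subset_rfl

theorem UU_conj {I : List Bool} {v : ℂ} (hv : v ∈ UU I) : (starRingEnd ℂ) v ∈ UU I := by
  unfold UU at hv ⊢
  split_ifs at hv ⊢ with h1
  · exact conj_LO hv
  · exact conj_LO hv

theorem Tw_mem' (h : KSys c₀ δ δ₁ L m κ) {c v : ℂ} (hc : c ∈ ball (c₀ : ℂ) δ) {I : List Bool}
    (hv : v ∈ UU I) : Tw I c v ∈ LL τ₀ (-3 / 2) (7 / 10) := by
  cases I with
  | nil =>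
    have h1 : v ∈ LO τ₀ (-13 / 20) (13 / 20) := by simpa [UU] using hv
    exact LO_subset_LL _ _ _ (LO_mono (by norm_num) (by norm_num) (by norm_num) h1)
  | cons σ I =>
    have h1 := Tw_cons_mem h hc (UU_sub _ hv) σ I
    cases σ with
    | true => exact LO_subset_LL _ _ _ (LO_mono (by norm_num) (by norm_num) (by norm_num) h1)
    | false => exact LO_subset_LL _ _ _ (LO_mono (by norm_num) (by norm_num) (by norm_num) h1)

theorem kappa_conj (h : KSys c₀ δ δ₁ L m κ) {I : List Bool} {v : ℂ} (hv : v ∈ UU I) :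
    (starRingEnd ℂ) (κ I v) = κ I ((starRingEnd ℂ) v) := by
  have hc := h.mem I v hv
  have hb := ball_of_mem h hc
  apply uniq h (UU_conj hv) (conj_mem_closedBall hc)
  rw [P3_conj, h.eq I v hv, Tw_conj h hb (UU_sub _ hv), gm_conj h hb (Tw_mem' h hb hv)]

theorem kappa_real (h : KSys c₀ δ δ₁ L m κ) {I : List Bool} {x : ℝ} (hv : (x : ℂ) ∈ UU I) :
    (κ I x).im = 0 := by
  have h1 := kappa_conj h hv
  rw [Complex.conj_ofReal] at h1
  exact Complex.conj_eq_iff_im.1 h1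

theorem zero_mem_UU (I : List Bool) : (0 : ℂ) ∈ UU I := by
  have h1 : ∀ a : ℝ, 0 < a → (0 : ℂ) ∈ LO τ₀ (-a) a := by
    intro a ha
    have := real_mem_LO (τ := τ₀) (j₁ := -a) (j₂ := a) (x := 0) (by linarith) ha
    simpa using this
  unfold UU
  split_ifs
  · have := h1 (13 / 20) (by norm_num)
    convert this using 2
    norm_num
  · have := h1 (4 / 5) (by norm_num)
    convert this using 2
    norm_num

theorem real_mem_UU {x : ℝ} (h1 : -16 / 25 ≤ x) (h2 : x ≤ 16 / 25) : (x : ℂ) ∈ UU [] := by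
  have : (x : ℂ) ∈ LO τ₀ (-13 / 20) (13 / 20) := real_mem_LO (by linarith) (by linarith)
  simpa [UU] using this

/-- the centre `κ I 0` as a value of `κ []` at a real point -/
theorem centre (h : KSys c₀ δ δ₁ L m κ) (σ : Bool) (I : List Bool) :
    ∃ w : ℝ, κ (σ :: I) 0 = κ [] w ∧
      (if σ then 1 / 25 < w ∧ w < 16 / 25 else -16 / 25 < w ∧ w < -1 / 25) := by
  obtain ⟨c, hcdef⟩ : ∃ c, c = κ (σ :: I) 0 := ⟨_, rfl⟩
  have h0 := zero_mem_UU (σ :: I)
  have hc : c ∈ closedBall (c₀ : ℂ) δ₁ := hcdef ▸ h.mem (σ :: I) 0 h0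
  have hb := ball_of_mem h hc
  have hcre : (starRingEnd ℂ) c = c := by
    have h1 := kappa_conj h h0
    rw [map_zero, ← hcdef] at h1
    exact h1
  have h0' : (0 : ℂ) ∈ LO τ₀ (-4 / 5) (4 / 5) := UU_sub _ h0
  obtain ⟨w, hwdef⟩ : ∃ w, w = Tw (σ :: I) c 0 := ⟨_, rfl⟩
  have hwre : (starRingEnd ℂ) w = w := by
    have h1 := Tw_conj h hb h0' (σ :: I)
    rw [hcre, map_zero, ← hwdef] at h1
    exact h1.symm
  have hwim : w.im = 0 := Complex.conj_eq_iff_im.1 hwre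
  have hw : ((w.re : ℝ) : ℂ) = w := Complex.conj_eq_iff_re.1 hwre
  have hmem := Tw_cons_mem h hb h0' σ I
  rw [← hwdef] at hmem
  have heq : P 2 3 c = (g c)^[m] w := by
    rw [hwdef, hcdef]
    exact h.eq (σ :: I) 0 h0
  have hfin : ∀ hw' : w ∈ UU [], c = κ [] w := fun hw' => uniq h hw' hc heq
  cases σ with
  | true =>
    have h1 : 1 / 25 < w.re ∧ w.re < 16 / 25 := of_real_mem_LO (by norm_num) hmem hwim
    refine ⟨w.re, ?_, by simpa using h1⟩
    rw [hw, ← hcdef]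
    apply hfin
    rw [← hw]
    exact real_mem_UU (by linarith) (by linarith)
  | false =>
    have h1 : -16 / 25 < w.re ∧ w.re < -1 / 25 := of_real_mem_LO (by norm_num) hmem hwim
    refine ⟨w.re, ?_, by simpa using h1⟩
    rw [hw, ← hcdef]
    apply hfin
    rw [← hw]
    exact real_mem_UU (by linarith) (by linarith)

/-- the real inverse branch -/
theorem g_real {t z : ℝ} (h : 0 < z - t) : g t z = ((-√(z - t) : ℝ) : ℂ) := by
  unfold g
  rw [Complex.ofReal_neg, neg_inj]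
  apply sq_unique
  · rw [← Complex.ofReal_pow, Real.sq_sqrt h.le]
    push_cast
    ring
  · rw [Complex.ofReal_re]
    exact Real.sqrt_pos.2 h

theorem odd_iter (h : KSys c₀ δ δ₁ L m κ) {t ζ : ℝ} (ht : (t : ℂ) ∈ ball (c₀ : ℂ) δ)
    (h1 : -16 / 25 ≤ ζ) (h2 : ζ ≤ 16 / 25) (n : ℕ) :
    ∃ z : ℝ, (g t)^[n] ζ = z ∧ -3 / 2 ≤ z ∧ z ≤ 7 / 10 ∧
      (Even n → (1 - √(1 - 4 * t)) / 2 < z) ∧ (Odd n → z < (1 - √(1 - 4 * t)) / 2) := by
  have ht' : |t - c₀| < δ := by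
    rw [mem_ball, dist_eq_norm, ← Complex.ofReal_sub, Complex.norm_real] at ht
    exact ht
  have ht1 : t ≤ -15435 / 10000 := by
    have := abs_lt.1 ht'
    have := h.hc₀.2
    have := h.hδ.2
    linarith
  have ht2 : -2 ≤ t := by
    have := abs_lt.1 ht'
    have := h.hc₀.1
    have := h.hδ.2
    linarith
  obtain ⟨s, hs⟩ : ∃ s, s = √(1 - 4 * t) := ⟨_, rfl⟩
  have hs2 : s ^ 2 = 1 - 4 * t := by rw [hs]; exact Real.sq_sqrt (by linarith)
  have hs0 : 0 ≤ s := by rw [hs]; exact Real.sqrt_nonneg _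
  have hs3 : 26 / 10 < s := by nlinarith
  rw [← hs]
  obtain ⟨al, hal⟩ : ∃ al, al = (1 - s) / 2 := ⟨_, rfl⟩
  rw [← hal]
  have hal2 : al ^ 2 + t = al := by rw [hal]; nlinarith
  have hal3 : al < -8 / 10 := by rw [hal]; linarith
  induction n with
  | zero =>
    refine ⟨ζ, rfl, by linarith, by linarith, fun _ => by linarith, fun h => ?_⟩
    simp at h
  | succ n ih =>
    obtain ⟨z, hz, hz1, hz2, hz3, hz4⟩ := ih
    have hzt : 0 < z - t := by linarith
    refine ⟨-√(z - t), ?_, ?_⟩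
    · rw [Function.iterate_succ_apply', hz, g_real hzt]
    have hm := (h.gmap t ht z (real_mem_LL hz1 hz2)).2
    rw [g_real hzt] at hm
    have hm2 := of_real_mem_LO (by norm_num) hm (Complex.ofReal_im _)
    rw [Complex.ofReal_re] at hm2
    refine ⟨by linarith [hm2.1], by linarith [hm2.2], ?_, ?_⟩
    · intro he
      have ho : ¬ Even n := by
        intro hh; exact absurd he (by simp [Nat.even_add_one, hh])
      have h3 := hz4 (Nat.not_even_iff_odd.1 ho)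
      have h5 : √(z - t) < -al := by
        rw [Real.sqrt_lt' (by linarith)]
        nlinarith
      linarith
    · intro ho
      have he : Even n := by
        by_contra hh
        have := Nat.even_add_one.2 hh
        exact (Nat.not_even_iff_odd.2 ho) this
      have h3 := hz3 he
      have h5 : -al < √(z - t) := by
        apply Real.lt_sqrt_of_sq_lt
        nlinarith
      linarith

theorem kappa_inj (h : KSys c₀ δ δ₁ L m κ) {u v : ℂ} (hu : u ∈ UU []) (hv : v ∈ UU [])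
    (huv : κ [] u = κ [] v) : u = v := by
  have h1 := h.eq [] u hu
  have h2 := h.eq [] v hv
  rw [huv] at h1
  rw [h1] at h2
  exact (g_inj _).iterate m h2

theorem real_gap (h : KSys c₀ δ δ₁ L m κ) :
    ∃ p q gap : ℝ, 0 < gap ∧
      (∀ I : List Bool, I ≠ [] → (κ I 0).im = 0 ∧ (κ I 0).re ∈ Icc p q) ∧
      (∀ t ∈ Icc p q, ∀ j : ℕ, (P 2 (2 * j + 1) (t : ℂ)).re ≤ -1 / 2) ∧
      ((∀ I J : List Bool, (κ (true :: I) 0).re + gap ≤ (κ (false :: J) 0).re) ∨
        (∀ I J : List Bool, (κ (false :: I) 0).re + gap ≤ (κ (true :: J) 0).re)) := by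
  obtain ⟨k, hk⟩ : ∃ k : ℝ → ℝ, ∀ x, k x = (κ [] x).re := ⟨fun x => (κ [] x).re, fun _ => rfl⟩
  have hkr : ∀ x ∈ Icc (-16 / 25 : ℝ) (16 / 25), κ [] x = (k x : ℂ) := by
    intro x hx
    rw [hk]
    have := kappa_real h (real_mem_UU hx.1 hx.2)
    exact (Complex.ext (by simp) (by simp [this])).symm.symm
  have hcont : ContinuousOn k (Icc (-16 / 25 : ℝ) (16 / 25)) := by
    have h1 : ContinuousOn (fun x : ℝ => (κ [] x).re) (Icc (-16 / 25 : ℝ) (16 / 25)) := by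
      apply Complex.continuous_re.comp_continuousOn
      exact (h.diff []).continuousOn.comp Complex.continuous_ofReal.continuousOn
        (fun x hx => real_mem_UU hx.1 hx.2)
    exact h1.congr fun x _ => hk x
  have hinj : InjOn k (Icc (-16 / 25 : ℝ) (16 / 25)) := by
    intro x hx y hy hxy
    have h1 : κ [] x = κ [] y := by rw [hkr x hx, hkr y hy, hxy]
    exact_mod_cast kappa_inj h (real_mem_UU hx.1 hx.2) (real_mem_UU hy.1 hy.2) h1
  -- the values of `k` satisfy the renormalisation condition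
  have hren : ∀ ζ ∈ Icc (-16 / 25 : ℝ) (16 / 25), ∀ j : ℕ,
      (P 2 (2 * j + 1) ((k ζ : ℝ) : ℂ)).re ≤ -1 / 2 := by
    intro ζ hζ j
    obtain ⟨t, ht⟩ : ∃ t, t = k ζ := ⟨_, rfl⟩
    rw [← ht]
    have hmem := real_mem_UU hζ.1 hζ.2
    have hc := h.mem [] ζ hmem
    have he := h.eq [] ζ hmem
    rw [hkr ζ hζ, ← ht] at hc he
    have hb := ball_of_mem h hc
    have ht' : |t - c₀| < δ := by
      rw [mem_ball, dist_eq_norm, ← Complex.ofReal_sub, Complex.norm_real] at hb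
      exact hb
    have a1 := abs_lt.1 ht'
    have a2 := h.hc₀
    have a3 := h.hδ
    obtain ⟨z, hz, -, -, -, hz4⟩ := odd_iter h hb hζ.1 hζ.2 m
    have h5 := hz4 h.hm
    refine (Pool.Agent.T6.H32.LC.real_renorm (by linarith) (by linarith) ?_ j).2
    rw [he]
    show ((g t)^[m] (ζ : ℂ)).re ≤ _
    rw [hz, Complex.ofReal_re]
    exact h5.le
  have hI : ∀ I : List Bool, I ≠ [] → ∃ w ∈ Icc (-16 / 25 : ℝ) (16 / 25), κ I 0 = (k w : ℂ) := by
    intro I hI
    obtain ⟨σ, I', rfl⟩ := List.exists_cons_of_ne_nil hI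
    obtain ⟨w, hw1, hw2⟩ := centre h σ I'
    have hw3 : w ∈ Icc (-16 / 25 : ℝ) (16 / 25) := by
      cases σ with
      | true =>
        have : 1 / 25 < w ∧ w < 16 / 25 := by simpa using hw2
        constructor <;> linarith [this.1, this.2]
      | false =>
        have : -16 / 25 < w ∧ w < -1 / 25 := by simpa using hw2
        constructor <;> linarith [this.1, this.2]
    exact ⟨w, hw3, by rw [hw1, hkr w hw3]⟩
  have hT : ∀ I, ∃ w : ℝ, 1 / 25 ≤ w ∧ w ≤ 16 / 25 ∧ (κ (true :: I) 0).re = k w := by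
    intro I
    obtain ⟨w, hw1, hw2⟩ := centre h true I
    have h3 : 1 / 25 < w ∧ w < 16 / 25 := by simpa using hw2
    exact ⟨w, h3.1.le, h3.2.le, by rw [hw1, hk]⟩
  have hF : ∀ I, ∃ w : ℝ, -16 / 25 ≤ w ∧ w ≤ -1 / 25 ∧ (κ (false :: I) 0).re = k w := by
    intro I
    obtain ⟨w, hw1, hw2⟩ := centre h false I
    have h3 : -16 / 25 < w ∧ w < -1 / 25 := by simpa using hw2
    exact ⟨w, h3.1.le, h3.2.le, by rw [hw1, hk]⟩
  have hL : (-16 / 25 : ℝ) ∈ Icc (-16 / 25 : ℝ) (16 / 25) := ⟨le_refl _, by norm_num⟩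
  have hR : (16 / 25 : ℝ) ∈ Icc (-16 / 25 : ℝ) (16 / 25) := ⟨by norm_num, le_refl _⟩
  have hl : (-1 / 25 : ℝ) ∈ Icc (-16 / 25 : ℝ) (16 / 25) := ⟨by norm_num, by norm_num⟩
  have hr : (1 / 25 : ℝ) ∈ Icc (-16 / 25 : ℝ) (16 / 25) := ⟨by norm_num, by norm_num⟩
  rcases ContinuousOn.strictMonoOn_of_injOn_Icc' (by norm_num) hcont hinj with hmono | hanti
  · refine ⟨k (-16 / 25), k (16 / 25), k (1 / 25) - k (-1 / 25), ?_, ?_, ?_, Or.inr ?_⟩
    · have := hmono hl hr (by norm_num)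
      linarith
    · intro I hI'
      obtain ⟨w, hw, he⟩ := hI I hI'
      rw [he, Complex.ofReal_im, Complex.ofReal_re]
      exact ⟨rfl, hmono.monotoneOn hL hw hw.1, hmono.monotoneOn hw hR hw.2⟩
    · intro t ht
      obtain ⟨ζ, hζ, rfl⟩ := intermediate_value_Icc (by norm_num) hcont ht
      exact hren ζ hζ
    · intro I J
      obtain ⟨w, hw1, hw2, hw3⟩ := hF I
      obtain ⟨w', hw1', hw2', hw3'⟩ := hT J
      rw [hw3, hw3']
      have h1 := hmono.monotoneOn (a := w) (b := -1 / 25) ⟨hw1, by linarith⟩ hl hw2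
      have h2 := hmono.monotoneOn (a := 1 / 25) (b := w') hr ⟨by linarith, hw2'⟩ hw1'
      linarith
  · refine ⟨k (16 / 25), k (-16 / 25), k (-1 / 25) - k (1 / 25), ?_, ?_, ?_, Or.inl ?_⟩
    · have := hanti hl hr (by norm_num)
      linarith
    · intro I hI'
      obtain ⟨w, hw, he⟩ := hI I hI'
      rw [he, Complex.ofReal_im, Complex.ofReal_re]
      exact ⟨rfl, hanti.antitoneOn hw hR hw.2, hanti.antitoneOn hL hw hw.1⟩
    · intro t ht
      obtain ⟨ζ, hζ, rfl⟩ := intermediate_value_Icc' (by norm_num) hcont ht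
      exact hren ζ hζ
    · intro I J
      obtain ⟨w, hw1, hw2, hw3⟩ := hT I
      obtain ⟨w', hw1', hw2', hw3'⟩ := hF J
      rw [hw3, hw3']
      have h1 := hanti.antitoneOn (a := 1 / 25) (b := w) hr ⟨by linarith, hw2⟩ hw1
      have h2 := hanti.antitoneOn (a := w') (b := -1 / 25) ⟨hw1', by linarith⟩ hl hw2'
      linarith

end Pool.Agent.T6.H48.LC
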